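import Mathlib
import Pool.Agent.X132.ConeE

/-!
# Coning and Betti numbers of trivariate cofactor complexes
-/

set_option linter.unusedSectionVars false

namespace Pool.Agent.Results.MP_9cf723_co.ConingBetti

open MvPolynomial Pool.Agent.X132.Cone

/-- The affine form attached to a linear functional. -/
theorem eval_form (φ : (Fin 3 → ℝ) →ₗ[ℝ] ℝ) (b : ℝ) (x : Fin 3 → ℝ) :
    eval x (aff (fun i => φ (Pi.single i 1)) b) = φ x + b := by
  rw [eval_aff]
  have : φ x = ∑ i, φ (Pi.single i 1) * x i := by
    rw [LinearMap.pi_apply_eq_sum_univ φ x]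
    refine Finset.sum_congr rfl fun i _ => ?_
    rw [smul_eq_mul, mul_comm]
    congr 2
    funext j
    simp [Pi.single_apply, eq_comm]
  rw [this]; ring

theorem form_exists {Q : Set (Fin 3 → ℝ)} {q : Fin 3 → ℝ} (h : q ∉ affineSpan ℝ Q) :
    ∃ a b, (∀ x ∈ Q, eval x (aff a b) = 0) ∧ eval q (aff a b) = 1 := by
  rcases Q.eq_empty_or_nonempty with rfl | ⟨x0, hx0⟩
  · exact ⟨0, 1, by simp, by simp [eval_aff]⟩
  · have h1 : q - x0 ∉ vectorSpan ℝ Q := by
      intro h2
      apply h
      have h3 := AffineSubspace.vadd_mem_of_mem_direction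
        (by rw [direction_affineSpan]; exact h2 : q - x0 ∈ (affineSpan ℝ Q).direction)
        (mem_affineSpan ℝ hx0)
      simpa using h3
    obtain ⟨φ, hφ, hφW⟩ := Submodule.exists_le_ker_of_notMem h1
    refine ⟨fun i => ((φ (q - x0))⁻¹ • φ) (Pi.single i 1), -((φ (q - x0))⁻¹ • φ) x0, ?_, ?_⟩
    · intro x hx
      rw [eval_form]
      have h4 : φ (x - x0) = 0 := by
        have : x - x0 ∈ vectorSpan ℝ Q := by
          have := vsub_mem_vectorSpan ℝ hx hx0
          simpa using this
        exact hφW this
      rw [map_sub, sub_eq_zero] at h4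
      simp [h4]
    · rw [eval_form]
      simp only [LinearMap.smul_apply, smul_eq_mul]
      rw [← sub_eq_add_neg, ← mul_sub, ← map_sub, inv_mul_cancel₀ hφ]

variable {α : Type} [LinearOrder α] [Fintype α]

theorem sep_of_general {Δ : Finset (Finset α)} (hΔ : IsComplex Δ) {p : α → Fin 3 → ℝ} {w : α}
    (hg : General Δ p w) : Sep Δ p w := by
  intro ψ hψ
  refine form_exists (hg (ψ : Set α) (fun v hv => hΔ.down ψ hψ _
    (Finset.singleton_subset_iff.2 (by exact_mod_cast hv))) ?_)
  intro htop
  have hc := hΔ.card_le ψ hψ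
  rcases Nat.eq_zero_or_pos ψ.card with h0 | h0
  · rw [Finset.card_eq_zero] at h0
    subst h0
    simp only [Finset.coe_empty, Set.image_empty, AffineSubspace.span_empty] at htop
    exact bot_ne_top htop
  · have h1 := finrank_vectorSpan_image_finset_le ℝ p ψ (n := ψ.card - 1) (by omega)
    have h2 : vectorSpan ℝ (p '' (ψ : Set α)) = ⊤ := by
      rw [← direction_affineSpan, htop, AffineSubspace.direction_top]
    rw [Finset.coe_image, h2, finrank_top] at h1
    simp at h1
    omega

theorem range_restrict (p : α → Fin 3 → ℝ) (σ : Finset α) :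
    Set.range (fun v : σ => p v) = p '' (σ : Set α) := by
  ext x
  simp

theorem degenerate_iff {Δ : Finset (Finset α)} (hΔ : IsComplex Δ) {p : α → Fin 3 → ℝ} {w : α}
    (hg : General Δ p w) {s : ℕ} {σ : Finset α} (hσ : σ ∈ Δ) (hc : σ.card = 3) :
    Ispace p (s + 1) (insert w σ) = ⊥ ↔ AffineIndependent ℝ (fun v : σ => p v) := by
  have hcard : Fintype.card σ = 2 + 1 := by rw [Fintype.card_coe, hc]
  obtain ⟨v0, hv0⟩ : σ.Nonempty := by rw [← Finset.card_pos, hc]; norm_num
  have hx0 : p v0 ∈ p '' (σ : Set α) := ⟨v0, by exact_mod_cast hv0, rfl⟩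
  rw [affineIndependent_iff_finrank_vectorSpan_eq ℝ _ hcard, range_restrict, Ispace_eq,
    image_insert']
  have hle : Module.finrank ℝ (vectorSpan ℝ (p '' (σ : Set α))) ≤ 2 := by
    have := finrank_vectorSpan_image_finset_le ℝ p σ (n := 2) hc
    rwa [Finset.coe_image] at this
  have hnot : affineSpan ℝ (p '' (σ : Set α)) ≠ ⊤ := by
    intro htop
    have h2 : vectorSpan ℝ (p '' (σ : Set α)) = ⊤ := by
      rw [← direction_affineSpan, htop, AffineSubspace.direction_top]
    rw [h2, finrank_top] at hle
    simp at hle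
  have hq := hg (σ : Set α) (fun v hv => hΔ.down σ hσ _
    (Finset.singleton_subset_iff.2 (by exact_mod_cast hv))) hnot
  have hq' : p w - p v0 ∉ vectorSpan ℝ (p '' (σ : Set α)) := by
    intro h2
    apply hq
    have h3 := AffineSubspace.vadd_mem_of_mem_direction
      (by rw [direction_affineSpan]; exact h2 :
        p w - p v0 ∈ (affineSpan ℝ (p '' (σ : Set α))).direction) (mem_affineSpan ℝ hx0)
    simpa using h3
  constructor
  · -- a degenerate face gives a nonzero element
    intro hbot
    by_contra hne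
    have hlt : Module.finrank ℝ (vectorSpan ℝ (p '' (σ : Set α))) ≤ 1 := by omega
    have hW : (vectorSpan ℝ (p '' (σ : Set α)) ⊔ Submodule.span ℝ {p w - p v0}) ≠ ⊤ := by
      intro htop
      have h1 := Submodule.finrank_add_le_finrank_add_finrank
        (vectorSpan ℝ (p '' (σ : Set α))) (Submodule.span ℝ {p w - p v0})
      rw [htop, finrank_top] at h1
      have h2 := finrank_span_le_card (R := ℝ) ({p w - p v0} : Set (Fin 3 → ℝ))
      simp at h1 h2
      omega
    obtain ⟨φ, hφ0, hφW⟩ := Submodule.exists_le_ker_of_lt_top _ (lt_top_iff_ne_top.2 hW)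
    have hz : ∀ x ∈ insert (p w) (p '' (σ : Set α)),
        eval x (aff (fun i => φ (Pi.single i 1)) (-φ (p v0))) = 0 := by
      intro x hx
      rw [eval_form, ← sub_eq_add_neg, ← map_sub]
      refine hφW ?_
      rcases hx with rfl | hx
      · exact Submodule.mem_sup_right (Submodule.mem_span_singleton_self _)
      · refine Submodule.mem_sup_left ?_
        have := vsub_mem_vectorSpan ℝ hx hx0
        simpa using this
    have hmem : aff (fun i => φ (Pi.single i 1)) (-φ (p v0)) ^ (s + 1) ∈
        powSpan (insert (p w) (p '' (σ : Set α))) (s + 1) :=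
      Submodule.subset_span ⟨_, _, hz, rfl⟩
    rw [hbot, Submodule.mem_bot] at hmem
    have hzero := pow_eq_zero_iff (Nat.succ_ne_zero s) |>.1 hmem
    apply hφ0
    ext i
    have h1 := congrArg (eval (Pi.single i 1)) hzero
    have h2 := congrArg (eval 0) hzero
    rw [eval_form, map_zero] at h1 h2
    simp only [LinearMap.zero_comp, LinearMap.comp_apply, LinearMap.single_apply,
      LinearMap.zero_apply]
    simp only [map_zero] at h2
    linarith
  · -- a nondegenerate face spans everything
    intro hfr
    rw [eq_bot_iff, powSpan, Submodule.span_le]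
    rintro f ⟨a, b, hab, rfl⟩
    rw [SetLike.mem_coe, Submodule.mem_bot]
    let φ : (Fin 3 → ℝ) →ₗ[ℝ] ℝ := ∑ i, a i • LinearMap.proj i
    have hφ : ∀ x, φ x = ∑ i, a i * x i := by
      intro x
      simp [φ, LinearMap.sum_apply]
    have hker : vectorSpan ℝ (p '' (σ : Set α)) ≤ LinearMap.ker φ := by
      rw [vectorSpan_eq_span_vsub_set_right ℝ hx0, Submodule.span_le]
      rintro _ ⟨x, hx, rfl⟩
      have h1 := hab x (Set.mem_insert_of_mem _ hx)
      have h2 := hab _ (Set.mem_insert_of_mem _ hx0)
      rw [eval_aff] at h1 h2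
      rw [SetLike.mem_coe, LinearMap.mem_ker]
      change φ (x - p v0) = 0
      rw [map_sub, hφ, hφ]
      linarith
    have hφ0 : φ = 0 := by
      by_contra hne
      have hlt : LinearMap.ker φ < ⊤ := lt_top_iff_ne_top.2 (fun h => hne (LinearMap.ker_eq_top.1 h))
      have h1 := Submodule.finrank_lt hlt.ne
      rw [show Module.finrank ℝ (Fin 3 → ℝ) = 3 by simp] at h1
      have h2 := Submodule.finrank_mono hker
      have h3 : vectorSpan ℝ (p '' (σ : Set α)) = LinearMap.ker φ :=
        Submodule.eq_of_le_of_finrank_eq hker (by omega)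
      apply hq'
      rw [h3, LinearMap.mem_ker, map_sub, hφ, hφ]
      have h4 := hab _ (Set.mem_insert _ _)
      have h5 := hab _ (Set.mem_insert_of_mem _ hx0)
      rw [eval_aff] at h4 h5
      linarith
    have ha : a = 0 := by
      funext i
      have := hφ (Pi.single i 1)
      rw [hφ0] at this
      simpa [Pi.single_apply] using this.symm
    have hb : b = 0 := by
      have h4 := hab _ (Set.mem_insert _ _)
      rw [eval_aff, ha] at h4
      simpa using h4
    rw [ha, hb]
    simp [aff]

/-- Comparison of the Betti numbers of a two-complex and of its truncated cone. -/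
theorem main {Δ : Finset (Finset α)} (hΔ : IsComplex Δ) {w : α} (hw : {w} ∉ Δ)
    (p : α → Fin 3 → ℝ) (hg : General Δ p w) (s : ℕ) :
    (∀ k ≤ 2, betti Δ p s k = betti (cone w Δ) p (s + 1) k) ∧
    (betti Δ p s 3 = betti (cone w Δ) p (s + 1) 3 ↔
      ∀ σ ∈ Δ, σ.card = 3 → AffineIndependent ℝ (fun v : σ => p v)) := by
  have hsep := sep_of_general hΔ hg
  refine ⟨fun k hk => (betti_low hΔ hw hsep hk).symm, ?_⟩
  rw [betti_top hΔ hw hsep]
  have hfd : FiniteDimensional ℝ (chains (cone w Δ) p (s + 1) 3 ⊓ LinearMap.ker bd :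
    Submodule ℝ (Finset α → Poly)) := Submodule.finiteDimensional_inf_left _ _
  have hfd2 : FiniteDimensional ℝ (chains (cone w Δ) p (s + 1) 3 ⊓ LinearMap.ker bd ⊓
    LinearMap.ker (Phi p w s) : Submodule ℝ (Finset α → Poly)) :=
    Submodule.finiteDimensional_inf_left _ _
  have h1 : betti Δ p s 3 = betti Δ p s 3 + Module.finrank ℝ (chains (cone w Δ) p (s + 1) 3 ⊓
      LinearMap.ker bd ⊓ LinearMap.ker (Phi p w s) : Submodule ℝ (Finset α → Poly)) ↔
      (chains (cone w Δ) p (s + 1) 3 ⊓ LinearMap.ker bd ⊓
        LinearMap.ker (Phi p w s) : Submodule ℝ (Finset α → Poly)) = ⊥ := by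
    rw [← Submodule.finrank_eq_zero (R := ℝ)]
    omega
  rw [h1, extra_iff hΔ hw hsep]
  constructor
  · intro h σ hσ hc
    exact (degenerate_iff hΔ hg hσ hc).1 (h σ hσ hc)
  · intro h σ hσ hc
    exact (degenerate_iff hΔ hg hσ hc).2 (h σ hσ hc)

/-- A degenerate configuration of a triangle and an apex. -/
def degConf : Fin 4 → Fin 3 → ℝ := fun i => if i = 3 then Pi.single 0 1 else 0

/-- The full triangle on the vertices `0, 1, 2`. -/
def triangle : Finset (Finset (Fin 4)) := ({0, 1, 2} : Finset (Fin 4)).powerset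

theorem triangle_isComplex : IsComplex triangle where
  empty_mem := by decide
  down := by
    intro ψ hψ θ hθ
    rw [triangle, Finset.mem_powerset] at *
    exact hθ.trans hψ
  card_le := by
    intro ψ hψ
    rw [triangle, Finset.mem_powerset] at hψ
    exact (Finset.card_le_card hψ).trans (by decide)

theorem degConf_general : General triangle degConf 3 := by
  intro A hA _ hmem
  have hsub : degConf '' A ⊆ {0} := by
    rintro _ ⟨v, hv, rfl⟩
    have h1 := hA v hv
    rw [triangle, Finset.mem_powerset, Finset.singleton_subset_iff] at h1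
    have h2 : v ≠ 3 := by
      rintro rfl
      revert h1
      decide
    simp [degConf, h2]
  have h3 := affineSpan_mono ℝ hsub hmem
  have h4 : degConf 3 = 0 := by
    have h5 : degConf 3 ∈ affineSpan ℝ ({0} : Set (Fin 3 → ℝ)) := h3
    rw [AffineSubspace.mem_affineSpan_singleton] at h5
    exact h5
  have h6 := congrFun h4 0
  simp [degConf] at h6

theorem degConf_not_indep : ¬ AffineIndependent ℝ
    (fun v : ({0, 1, 2} : Finset (Fin 4)) => degConf v) := by
  intro h
  have h1 := h.injective
  have h2 : (⟨0, by decide⟩ : ({0, 1, 2} : Finset (Fin 4))) = ⟨1, by decide⟩ := by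
    apply h1
    simp [degConf]
  simp at h2

/-- **Coning and Betti numbers of trivariate cofactor complexes.** For every two-complex, every
configuration, every `s` and every apex in general position, coning preserves the Betti numbers in
degrees `-1, 0, 1`, and it preserves all Betti numbers if and only if the three vertices of every
two-dimensional face are placed at affinely independent points. In particular the equality of all
Betti numbers fails for some configuration of a full triangle. -/
theorem result :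
    (∀ (α : Type) [LinearOrder α] [Fintype α] (Δ : Finset (Finset α)) (w : α)
      (p : α → Fin 3 → ℝ) (s : ℕ), Setting Δ w p →
      (∀ k ≤ 2, Preserved Δ w p s k) ∧
      ((∀ k ≤ 3, Preserved Δ w p s k) ↔ Nondegenerate Δ p)) ∧
    ∃ (Δ : Finset (Finset (Fin 4))) (w : Fin 4) (p : Fin 4 → Fin 3 → ℝ) (s : ℕ),
      Setting Δ w p ∧ (∃ σ ∈ Δ, σ.card = 3) ∧ ¬ Preserved Δ w p s 3 := by
  refine ⟨?_, ?_⟩
  · rintro α _ _ Δ w p s ⟨hΔ, hw, hg⟩
    obtain ⟨h1, h2⟩ := main hΔ hw p hg s
    refine ⟨h1, ?_⟩
    unfold Nondegenerate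
    rw [← h2]
    constructor
    · intro h; exact h 3 le_rfl
    · intro h k hk
      rcases Nat.lt_or_ge k 3 with h3 | h3
      · exact h1 k (by omega)
      · have : k = 3 := by omega
        rw [this]; exact h
  · refine ⟨triangle, 3, degConf, 0, ⟨triangle_isComplex, by decide, degConf_general⟩,
      ⟨{0, 1, 2}, by decide, by decide⟩, ?_⟩
    intro h
    have h2 := (main triangle_isComplex (w := 3) (by decide) degConf degConf_general 0).2.1 h
    exact degConf_not_indep (h2 {0, 1, 2} (by decide) (by decide))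

end Pool.Agent.Results.MP_9cf723_co.ConingBetti
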